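import Mathlib

set_option autoImplicit false

open Complex

namespace Pool.Agent.Results.MP_85e029_nt.NotRelativelyDense

/-- The spectrum `X^m(q)`: all sums `a_0 + a_1 q + ... + a_n q^n` with digits in `{0, ..., m}`. -/
def X (m : ℕ) (q : ℂ) : Set ℂ :=
  {x | ∃ (n : ℕ) (a : ℕ → ℕ), (∀ j, a j ≤ m) ∧ x = ∑ j ∈ Finset.range (n + 1), (a j : ℂ) * q ^ j}

/-- Relative density in the plane: every closed disc of some fixed radius meets the set. -/
def RelativelyDense (S : Set ℂ) : Prop :=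
  ∃ R : ℝ, 0 < R ∧ ∀ z : ℂ, (Metric.closedBall z R ∩ S).Nonempty

/-- A complex Pisot unit: a non-real algebraic unit of modulus `> 1` all of whose other
conjugates, except the complex conjugate, have modulus `< 1`. -/
def IsComplexPisotUnit (γ : ℂ) : Prop :=
  γ.im ≠ 0 ∧ IsIntegral ℤ γ ∧ IsIntegral ℤ γ⁻¹ ∧ 1 < ‖γ‖ ∧
    ∀ z : ℂ, Polynomial.aeval z (minpoly ℚ γ) = 0 →
      z = γ ∨ z = (starRingEnd ℂ) γ ∨ ‖z‖ < 1

/-- normalised sums -/
noncomputable def F (u : ℂ) (a : ℕ → ℕ) : ℕ → ℂ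
  | 0 => a 0
  | (N + 1) => a (N + 1) + u * F u a N

lemma F_eq (γ : ℂ) (hγ : γ ≠ 0) (a : ℕ → ℕ) (N : ℕ) :
    ∑ j ∈ Finset.range (N + 1), (a j : ℂ) * γ ^ j = γ ^ N * F γ⁻¹ a N := by
  induction N with
  | zero => simp [F]
  | succ N ih =>
    rw [Finset.sum_range_succ, ih, F]
    field_simp
    ring

lemma F_bound (u : ℂ) (hu : ‖u‖ < 1) (a : ℕ → ℕ) (ha : ∀ j, a j ≤ 4) (N : ℕ) :
    ‖F u a N‖ ≤ 4 / (1 - ‖u‖) := by
  have h1 : 0 < 1 - ‖u‖ := by linarith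
  have hn : ∀ j, ‖(a j : ℂ)‖ ≤ 4 := by
    intro j
    rw [Complex.norm_natCast]
    exact_mod_cast ha j
  induction N with
  | zero =>
    rw [F]
    refine (hn 0).trans ?_
    rw [le_div_iff₀ h1]
    nlinarith [norm_nonneg u]
  | succ N ih =>
    rw [F]
    calc ‖(a (N + 1) : ℂ) + u * F u a N‖ ≤ ‖(a (N + 1) : ℂ)‖ + ‖u‖ * ‖F u a N‖ := by
          refine (norm_add_le _ _).trans ?_
          rw [norm_mul]
      _ ≤ 4 + ‖u‖ * (4 / (1 - ‖u‖)) := by
          have := hn (N+1)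
          have h2 := mul_le_mul_of_nonneg_left ih (norm_nonneg u)
          linarith
      _ = 4 / (1 - ‖u‖) := by field_simp; ring

lemma F_re (u : ℂ) (hu : ‖u‖ < 1) (h1 : 0 ≤ u.re) (h2 : 0 ≤ (u ^ 2).re) (h3 : 0 ≤ (u ^ 3).re)
    (h4 : 0 ≤ (u ^ 4).re) (ε : ℝ) (hε : ‖u‖ ^ 5 * (4 / (1 - ‖u‖)) ≤ ε) (hε0 : 0 ≤ ε)
    (a : ℕ → ℕ) (ha : ∀ j, a j ≤ 4) (N : ℕ) : (a N : ℝ) - ε ≤ (F u a N).re := by
  have hre : ∀ (k : ℕ) (z : ℂ), 0 ≤ z.re → 0 ≤ ((k : ℂ) * z).re := by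
    intro k z hz
    have : ((k : ℂ) * z).re = k * z.re := by simp
    rw [this]; positivity
  rcases N with _ | _ | _ | _ | _ | N
  · simp [F]; exact hε0
  · have e : F u a 1 = a 1 + a 0 * u := by simp only [F]; ring
    rw [e]
    have p1 := hre (a 0) u h1
    simp only [Complex.add_re, Complex.natCast_re]
    linarith
  · have e : F u a 2 = a 2 + a 1 * u + a 0 * u ^ 2 := by simp only [F]; ring
    rw [show (0 + 1 + 1 : ℕ) = 2 from rfl, e]
    have p1 := hre (a 1) u h1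
    have p2 := hre (a 0) _ h2
    simp only [Complex.add_re, Complex.natCast_re]
    linarith
  · have e : F u a 3 = a 3 + a 2 * u + a 1 * u ^ 2 + a 0 * u ^ 3 := by simp only [F]; ring
    rw [show (0 + 1 + 1 + 1 : ℕ) = 3 from rfl, e]
    have p1 := hre (a 2) u h1
    have p2 := hre (a 1) _ h2
    have p3 := hre (a 0) _ h3
    simp only [Complex.add_re, Complex.natCast_re]
    linarith
  · have e : F u a 4 = a 4 + a 3 * u + a 2 * u ^ 2 + a 1 * u ^ 3 + a 0 * u ^ 4 := by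
      simp only [F]; ring
    rw [show (0 + 1 + 1 + 1 + 1 : ℕ) = 4 from rfl, e]
    have p1 := hre (a 3) u h1
    have p2 := hre (a 2) _ h2
    have p3 := hre (a 1) _ h3
    have p4 := hre (a 0) _ h4
    simp only [Complex.add_re, Complex.natCast_re]
    linarith
  · have e : F u a (N + 5) = a (N + 5) + a (N + 4) * u + a (N + 3) * u ^ 2 + a (N + 2) * u ^ 3
        + a (N + 1) * u ^ 4 + u ^ 5 * F u a N := by
      simp only [F]; ring
    rw [show (N + 1 + 1 + 1 + 1 + 1 : ℕ) = N + 5 from rfl, e]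
    have p1 := hre (a (N + 4)) u h1
    have p2 := hre (a (N + 3)) _ h2
    have p3 := hre (a (N + 2)) _ h3
    have p4 := hre (a (N + 1)) _ h4
    have p5 : -ε ≤ (u ^ 5 * F u a N).re := by
      have h5 : |(u ^ 5 * F u a N).re| ≤ ‖u ^ 5 * F u a N‖ := Complex.abs_re_le_norm _
      have h6 : ‖u ^ 5 * F u a N‖ ≤ ε := by
        rw [norm_mul, norm_pow]
        exact (mul_le_mul_of_nonneg_left (F_bound u hu a ha N) (by positivity)).trans hε
      have := neg_abs_le (u ^ 5 * F u a N).re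
      linarith
    simp only [Complex.add_re, Complex.natCast_re]
    linarith

/-- the key gap: no point of `X^4(γ)` is near `-γ^K` -/
lemma gap (γ : ℂ) (hγ0 : γ ≠ 0) (hre : 0 ≤ γ.re) (hγ2 : 4 ≤ ‖γ‖ ^ 2) (hu : ‖γ⁻¹‖ < 1)
    (h1 : 0 ≤ (γ⁻¹).re) (h2 : 0 ≤ (γ⁻¹ ^ 2).re)
    (h3 : 0 ≤ (γ⁻¹ ^ 3).re) (h4 : 0 ≤ (γ⁻¹ ^ 4).re)
    (hε : ‖γ⁻¹‖ ^ 5 * (4 / (1 - ‖γ⁻¹‖)) ≤ 1/4) (K : ℕ) (x : ℂ) (hx : x ∈ X 4 γ) :
    3/4 * ‖γ‖ ^ K ≤ ‖x + γ ^ K‖ := by
  obtain ⟨n, a, ha, rfl⟩ := hx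
  have hγK : 0 < ‖γ‖ ^ K := by positivity
  -- pad with zeros
  set b : ℕ → ℕ := fun j => if j ≤ n then a j else 0 with hb
  have hb4 : ∀ j, b j ≤ 4 := by
    intro j; rw [hb]; simp only; split_ifs
    · exact ha j
    · omega
  have hsum : ∀ N, n ≤ N → ∑ j ∈ Finset.range (n + 1), (a j : ℂ) * γ ^ j =
      ∑ j ∈ Finset.range (N + 1), (b j : ℂ) * γ ^ j := by
    intro N hN
    rw [← Finset.sum_subset (Finset.range_mono (by omega : n + 1 ≤ N + 1))]
    · refine Finset.sum_congr rfl fun j hj => ?_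
      have : j ≤ n := by have := Finset.mem_range.mp hj; omega
      rw [hb]; simp only; rw [if_pos this]
    · intro j _ hj
      have : ¬ j ≤ n := by rw [Finset.mem_range] at hj; omega
      rw [hb]; simp only; rw [if_neg this]; simp
  -- main dichotomy
  by_cases hbig : ∃ N, K + 2 ≤ N ∧ N ≤ n ∧ a N ≠ 0
  · -- the largest such index
    obtain ⟨N, ⟨hN1, hN2, hN3⟩, hNmax⟩ : ∃ N, (K + 2 ≤ N ∧ N ≤ n ∧ a N ≠ 0) ∧
        ∀ N', N < N' → N' ≤ n → a N' = 0 := by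
      classical
      set N := Nat.findGreatest (fun N => K + 2 ≤ N ∧ N ≤ n ∧ a N ≠ 0) n with hN
      obtain ⟨N0, hN0⟩ := hbig
      have hs := Nat.findGreatest_spec (P := fun N => K + 2 ≤ N ∧ N ≤ n ∧ a N ≠ 0) hN0.2.1 hN0
      refine ⟨N, hs, ?_⟩
      intro N' h1' h2'
      have := Nat.findGreatest_is_greatest (P := fun N => K + 2 ≤ N ∧ N ≤ n ∧ a N ≠ 0) h1' h2'
      by_contra h3'
      have hs1 := hs.1
      exact this ⟨by omega, h2', h3'⟩
    have hxN : ∑ j ∈ Finset.range (n + 1), (a j : ℂ) * γ ^ j =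
        ∑ j ∈ Finset.range (N + 1), (a j : ℂ) * γ ^ j := by
      symm
      apply Finset.sum_subset (Finset.range_mono (by omega))
      intro j hj1 hj2
      rw [Finset.mem_range] at hj1 hj2
      rw [hNmax j (by omega) (by omega)]; simp
    rw [hxN, F_eq γ hγ0 a N]
    have hF := F_re γ⁻¹ hu h1 h2 h3 h4 (1/4) hε (by norm_num) a ha N
    have haN : (1:ℝ) ≤ a N := by exact_mod_cast Nat.one_le_iff_ne_zero.mpr hN3
    have hFn : 3/4 ≤ ‖F γ⁻¹ a N‖ := by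
      have := Complex.re_le_norm (F γ⁻¹ a N)
      linarith
    have hpow : 4 * ‖γ‖ ^ K ≤ ‖γ‖ ^ N := by
      obtain ⟨d, rfl⟩ := Nat.exists_eq_add_of_le hN1
      have hγ1 : 1 ≤ ‖γ‖ := by
        by_contra hcon
        push Not at hcon
        nlinarith [norm_nonneg γ]
      have : 1 ≤ ‖γ‖ ^ d := one_le_pow₀ hγ1
      calc 4 * ‖γ‖ ^ K ≤ ‖γ‖ ^ 2 * ‖γ‖ ^ K := mul_le_mul_of_nonneg_right hγ2 hγK.le
        _ = ‖γ‖ ^ (K + 2) * 1 := by ring
        _ ≤ ‖γ‖ ^ (K + 2) * ‖γ‖ ^ d := mul_le_mul_of_nonneg_left this (by positivity)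
        _ = ‖γ‖ ^ (K + 2 + d) := by rw [← pow_add]
    have hprod : 3 * ‖γ‖ ^ K ≤ ‖γ ^ N * F γ⁻¹ a N‖ := by
      rw [norm_mul, norm_pow]
      nlinarith
    have htri : ‖γ ^ N * F γ⁻¹ a N‖ ≤ ‖γ ^ N * F γ⁻¹ a N + γ ^ K‖ + ‖γ ^ K‖ := by
      have := norm_sub_le (γ ^ N * F γ⁻¹ a N + γ ^ K) (γ ^ K)
      rw [add_sub_cancel_right] at this
      exact this
    rw [norm_pow] at htri
    linarith
  · push Not at hbig
    have hxK : ∑ j ∈ Finset.range (n + 1), (a j : ℂ) * γ ^ j =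
        ∑ j ∈ Finset.range (K + 1), (b j : ℂ) * γ ^ j + (b (K + 1) : ℂ) * γ ^ (K + 1) := by
      rw [← Finset.sum_range_succ]
      rw [hsum (max n (K + 1)) (le_max_left _ _)]
      symm
      apply Finset.sum_subset (Finset.range_mono (by
        have := le_max_right n (K + 1); omega))
      intro j _ hj2
      rw [Finset.mem_range] at hj2
      have : b j = 0 := by
        rw [hb]; simp only
        split_ifs with h
        · exact hbig j (by omega) h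
        · rfl
      rw [this]; simp
    rw [hxK, F_eq γ hγ0 b K]
    have hF := F_re γ⁻¹ hu h1 h2 h3 h4 (1/4) hε (by norm_num) b hb4 K
    have hbK : (0:ℝ) ≤ b K := by positivity
    have e : γ ^ K * F γ⁻¹ b K + (b (K + 1) : ℂ) * γ ^ (K + 1) + γ ^ K =
        γ ^ K * (F γ⁻¹ b K + (b (K + 1) : ℂ) * γ + 1) := by ring
    rw [e, norm_mul, norm_pow, mul_comm]
    apply mul_le_mul_of_nonneg_left _ hγK.le
    refine le_trans ?_ (Complex.re_le_norm _)
    have e2 : (F γ⁻¹ b K + (b (K + 1) : ℂ) * γ + 1).re =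
        (F γ⁻¹ b K).re + b (K + 1) * γ.re + 1 := by simp
    rw [e2]
    have : 0 ≤ (b (K + 1) : ℝ) * γ.re := by positivity
    linarith

/-- The real root of `x^3 - 4x^2 + 5x - 1`. -/
lemma exists_r : ∃ r : ℝ, 0.2451 < r ∧ r < 0.2452 ∧ r ^ 3 - 4 * r ^ 2 + 5 * r - 1 = 0 := by
  have hc : ContinuousOn (fun r : ℝ => r ^ 3 - 4 * r ^ 2 + 5 * r - 1) (Set.Icc 0.2451 0.2452) := by
    fun_prop
  have h := intermediate_value_Ioo (by norm_num : (0.2451:ℝ) ≤ 0.2452) hc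
  have h0 : (0:ℝ) ∈ Set.Ioo ((fun r : ℝ => r ^ 3 - 4 * r ^ 2 + 5 * r - 1) 0.2451)
      ((fun r : ℝ => r ^ 3 - 4 * r ^ 2 + 5 * r - 1) 0.2452) := by
    constructor <;> norm_num
  obtain ⟨r, hr, hr2⟩ := h h0
  exact ⟨r, hr.1, hr.2, hr2⟩

/-- The complex Pisot unit used as the example. -/
lemma exists_gamma : ∃ γ : ℂ, γ ^ 3 - 4 * γ ^ 2 + 5 * γ - 1 = 0 ∧ IsComplexPisotUnit γ ∧
    ‖γ‖ ^ 2 - 1 < 4 ∧ ¬ RelativelyDense (X 4 γ) := by
  obtain ⟨r, hr1, hr2, hr3⟩ := exists_r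
  have hr0 : 0 < r := by linarith
  set a : ℝ := (4 - r) / 2 with ha
  have hinv : 1 / r = r ^ 2 - 4 * r + 5 := by
    field_simp; linarith
  have hi1 : 4.078 < 1 / r := by rw [lt_div_iff₀ hr0]; nlinarith
  have hi2 : 1 / r < 4.08 := by rw [div_lt_iff₀ hr0]; nlinarith
  have ha1 : 1.8774 < a := by rw [ha]; linarith
  have ha2 : a < 1.87745 := by rw [ha]; linarith
  have hb1 : 0.553 < 1 / r - a ^ 2 := by nlinarith
  have hb2 : 1 / r - a ^ 2 < 0.556 := by nlinarith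
  set b : ℝ := Real.sqrt (1 / r - a ^ 2) with hb
  have hbsq : b ^ 2 = 1 / r - a ^ 2 := by rw [hb]; exact Real.sq_sqrt (by linarith)
  have hb0 : 0 < b := by rw [hb]; exact Real.sqrt_pos.mpr (by linarith)
  set γ : ℂ := ⟨a, b⟩ with hγ
  set γ' : ℂ := ⟨a, -b⟩ with hγ'
  have hconj : (starRingEnd ℂ) γ = γ' := by
    apply Complex.ext <;> simp [hγ, hγ']
  have hprod : γ * γ' = ((1 / r : ℝ) : ℂ) := by
    apply Complex.ext
    · have e : (γ * γ').re = a * a + b * b := by simp [hγ, hγ']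
      rw [e, Complex.ofReal_re]; linarith [hbsq, sq a, sq b]
    · simp [hγ, hγ']; ring
  have hsum : γ + γ' = ((4 - r : ℝ) : ℂ) := by
    apply Complex.ext
    · simp [hγ, hγ', ha]
    · simp [hγ, hγ']
  have hrC : (r : ℂ) ≠ 0 := by exact_mod_cast hr0.ne'
  have hr3C : (r : ℂ) ^ 3 - 4 * (r : ℂ) ^ 2 + 5 * r - 1 = 0 := by exact_mod_cast hr3
  have hprod' : γ * γ' * r = 1 := by rw [hprod]; push_cast; field_simp
  have hfac : ∀ z : ℂ, z ^ 3 - 4 * z ^ 2 + 5 * z - 1 = (z - r) * ((z - γ) * (z - γ')) := by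
    intro z
    have e : (z - γ) * (z - γ') = z ^ 2 - (γ + γ') * z + γ * γ' := by ring
    have hinvC : ((1 / r : ℝ) : ℂ) = (r : ℂ) ^ 2 - 4 * r + 5 := by
      rw [hinv]; push_cast; ring
    rw [e, hsum, hprod, hinvC]
    push_cast
    linear_combination hr3C
  have hroot : γ ^ 3 - 4 * γ ^ 2 + 5 * γ - 1 = 0 := by rw [hfac]; ring
  have hnsq : ‖γ‖ ^ 2 = 1 / r := by
    rw [← Complex.normSq_eq_norm_sq, Complex.normSq_mk]; nlinarith
  have hγ0 : γ ≠ 0 := by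
    intro h; rw [h] at hroot; norm_num at hroot
  have hγinv : γ⁻¹ = r * γ' := by
    apply inv_eq_of_mul_eq_one_right
    rw [← hprod']; ring
  have hninv : ‖γ⁻¹‖ ^ 2 = r := by
    rw [norm_inv, inv_pow, hnsq]; simp
  have hn0 : 0 ≤ ‖γ⁻¹‖ := norm_nonneg _
  have hn1 : ‖γ⁻¹‖ < 0.4955 := by
    by_contra hcon
    push Not at hcon
    nlinarith
  -- integrality
  have hint : IsIntegral ℤ γ := by
    refine ⟨Polynomial.X ^ 3 - 4 * Polynomial.X ^ 2 + 5 * Polynomial.X - 1, ?_, ?_⟩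
    · monicity!
    · simp [hroot]
  have hint' : IsIntegral ℤ γ⁻¹ := by
    refine ⟨Polynomial.X ^ 3 - 5 * Polynomial.X ^ 2 + 4 * Polynomial.X - 1, ?_, ?_⟩
    · monicity!
    · simp only [Polynomial.eval₂_sub, Polynomial.eval₂_add, Polynomial.eval₂_mul,
        Polynomial.eval₂_pow, Polynomial.eval₂_X, Polynomial.eval₂_one, Polynomial.eval₂_ofNat]
      field_simp
      linear_combination -hroot
  refine ⟨γ, hroot, ⟨?_, hint, hint', ?_, ?_⟩, ?_, ?_⟩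
  · simp [hγ]; exact hb0.ne'
  · nlinarith [norm_nonneg γ]
  · intro z hz
    have hdvd : minpoly ℚ γ ∣ (Polynomial.X ^ 3 - 4 * Polynomial.X ^ 2 + 5 * Polynomial.X - 1 : Polynomial ℚ) := by
      apply minpoly.dvd
      rw [map_sub, map_add, map_sub, map_mul, map_mul, map_pow, map_pow, Polynomial.aeval_X,
        map_ofNat, map_ofNat, map_one]
      exact hroot
    obtain ⟨c, hc⟩ := hdvd
    have hz2 : z ^ 3 - 4 * z ^ 2 + 5 * z - 1 = 0 := by
      have := congrArg (Polynomial.aeval z) hc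
      rw [map_mul, hz, zero_mul, map_sub, map_add, map_sub, map_mul, map_mul, map_pow, map_pow,
        Polynomial.aeval_X, map_ofNat, map_ofNat, map_one] at this
      exact this
    rw [hfac] at hz2
    rcases mul_eq_zero.mp hz2 with h | h
    · right; right
      rw [sub_eq_zero.mp h, Complex.norm_real, Real.norm_eq_abs, abs_of_pos hr0]
      linarith
    · rcases mul_eq_zero.mp h with h | h
      · left; exact sub_eq_zero.mp h
      · right; left; rw [hconj]; exact sub_eq_zero.mp h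
  · rw [hnsq]; linarith
  · rintro ⟨R, hR, hRd⟩
    have hγ1 : 1 < ‖γ‖ := by nlinarith [norm_nonneg γ]
    obtain ⟨K, hK⟩ := pow_unbounded_of_one_lt (2 * R) hγ1
    obtain ⟨x, hx1, hx2⟩ := hRd (-(γ ^ K))
    have hg := gap γ hγ0 (by simp [hγ]; linarith) (by rw [hnsq]; linarith) (by linarith)
      (by rw [hγinv]; simp [hγ']; positivity)
      (by
        rw [hγinv, mul_pow, ← Complex.ofReal_pow, Complex.re_ofReal_mul]
        have : (γ' ^ 2).re = a ^ 2 - b ^ 2 := by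
          rw [pow_two]; simp [hγ']; ring
        rw [this, hbsq]
        have : 0 ≤ a ^ 2 - (1 / r - a ^ 2) := by nlinarith
        positivity)
      (by
        rw [hγinv, mul_pow, ← Complex.ofReal_pow, Complex.re_ofReal_mul]
        have : (γ' ^ 3).re = a * (a ^ 2 - 3 * b ^ 2) := by
          rw [pow_succ, pow_two]; simp [hγ']; ring
        rw [this, hbsq]
        have : 0 ≤ a ^ 2 - 3 * (1 / r - a ^ 2) := by nlinarith
        have : 0 ≤ a * (a ^ 2 - 3 * (1 / r - a ^ 2)) := by positivity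
        positivity)
      (by
        rw [hγinv, mul_pow, ← Complex.ofReal_pow, Complex.re_ofReal_mul]
        have : (γ' ^ 4).re = (a ^ 2 - b ^ 2) ^ 2 - 4 * a ^ 2 * b ^ 2 := by
          have e : γ' ^ 4 = (γ' * γ') * (γ' * γ') := by ring
          rw [e]; simp [hγ']; ring
        rw [this, hbsq]
        have h1 : 2.9685 < a ^ 2 - (1 / r - a ^ 2) := by nlinarith
        have h2 : a ^ 2 < 3.5249 := by nlinarith
        have h3 : 8.8 < (a ^ 2 - (1 / r - a ^ 2)) ^ 2 := by nlinarith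
        have h4 : a ^ 2 * (1 / r - a ^ 2) < 3.5249 * 0.556 := by
          apply mul_lt_mul'' h2 hb2 (by positivity) (by linarith)
        have : 0 ≤ (a ^ 2 - (1 / r - a ^ 2)) ^ 2 - 4 * a ^ 2 * (1 / r - a ^ 2) := by nlinarith
        positivity)
      (by
        have h5 : ‖γ⁻¹‖ ^ 5 = r ^ 2 * ‖γ⁻¹‖ := by
          rw [← hninv]; ring
        rw [h5, mul_div_assoc', div_le_iff₀ (by linarith)]
        have : r ^ 2 < 0.0602 := by nlinarith
        nlinarith)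
      K x hx2
    rw [Metric.mem_closedBall, dist_eq_norm, sub_neg_eq_add] at hx1
    linarith

/-- The question has a negative answer, already for (cubic) complex Pisot units. -/
theorem result :
    (∃ γ : ℂ, γ ^ 3 - 4 * γ ^ 2 + 5 * γ - 1 = 0 ∧ IsComplexPisotUnit γ ∧ ‖γ‖ ^ 2 - 1 < 4 ∧
      ¬ RelativelyDense (X 4 γ)) ∧
    ¬ ∀ γ : ℂ, γ.im ≠ 0 → 1 < ‖γ‖ → ∀ m : ℕ, 1 ≤ m → ‖γ‖ ^ 2 - 1 < m → RelativelyDense (X m γ) := by
  refine ⟨exists_gamma, ?_⟩
  intro h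
  obtain ⟨γ, _, hP, hm, hnd⟩ := exists_gamma
  exact hnd (h γ hP.1 hP.2.2.2.1 4 (by norm_num) (by exact_mod_cast hm))

end Pool.Agent.Results.MP_85e029_nt.NotRelativelyDense
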